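import Mathlib
import Pool.Agent.Helper948.ProP.Main

set_option autoImplicit false

/-! The elementary theory of a non-abelian free pro-`p` group is undecidable (Ershov's question). -/

namespace Pool.Agent.Results.MP_c4850b_lc.FreeProPUndecidable

open FirstOrder Pool.Agent.Helper948.ProP

/-- (1) Let `p` be a prime and let `F` be a free pro-`p` group with basis `ι : X → F`, where `X` has
two distinct elements (rank `≥ 2`, finite or infinite).  Then no computable function decides, given
the Gödel number of a first-order sentence `φ` in the language of groups, whether `F ⊨ φ`.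
(2) Free pro-`p` groups exist on every set.
(3) The Gödel numbering of sentences is injective. -/
theorem result :
    (∀ (p : ℕ), p.Prime → ∀ (X F : Type) [Group F] [TopologicalSpace F] (ι : X → F),
      IsFreeProP p ι → (∃ a b : X, a ≠ b) →
      ¬ ∃ f : ℕ → Bool, Computable f ∧ ∀ φ : LGrp.Sentence, f (code φ) = true ↔ F ⊨ φ) ∧
    (∀ (p : ℕ), p.Prime → ∀ X : Type,
      ∃ (F : Type) (_ : Group F) (_ : TopologicalSpace F) (ι : X → F), IsFreeProP p ι) ∧
    (∀ φ ψ : LGrp.Sentence, code φ = code ψ → φ = ψ) := by
  refine ⟨?_, ?_, ?_⟩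
  · intro p hp X F _ _ ι h ⟨a, b, hab⟩
    have : Fact p.Prime := ⟨hp⟩
    exact undecidable p ι h a b hab
  · intro p hp X
    have : Fact p.Prime := ⟨hp⟩
    exact Ex.exists_isFreeProP p X
  · intro φ ψ h
    exact F4b.code_injective φ ψ h

end Pool.Agent.Results.MP_c4850b_lc.FreeProPUndecidable
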